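import Pool.Agent.Run7.h608.TK.Iface

set_option autoImplicit false

open MeasureTheory Set Filter Topology
open scoped ENNReal
open R109.GT
open Run7.h608.TK

namespace Run7.h417.TK.STP

lemma part_succ (w : ℕ → ℤ → ℤ) (n : ℕ) (x : ℝ) : part w (n + 1) x =
    part w n x + (w n ⌊(2:ℝ) ^ n * x⌋ : ℝ) * phi ((2:ℝ) ^ n * x) / 2 ^ n := by
  unfold part
  rw [Finset.sum_range_succ]

lemma part_cont (w : ℕ → ℤ → ℤ) (hw : Sgn w) (n : ℕ) : Continuous (part w n) := by
  unfold part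
  refine continuous_finsetSum _ fun m _ => ?_
  have h := (term_cont (w m) (hw m)).comp
    (continuous_const.mul continuous_id : Continuous (fun x : ℝ => (2:ℝ) ^ m * x))
  exact h.div_const _

lemma lip (w : ℕ → ℤ → ℤ) (hw : Sgn w) (n m : ℕ) (x y : ℝ) (hxy : x ≤ y) :
    |(part w (n + m) x - part w n x) - (part w (n + m) y - part w n y)| ≤ m * (y - x) := by
  induction m with
  | zero => simp
  | succ m ih =>
    have e : n + (m + 1) = (n + m) + 1 := by ring
    rw [e, part_succ w (n + m) x, part_succ w (n + m) y]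
    have hp : (0:ℝ) < 2 ^ (n + m) := by positivity
    have ht := term_lip (w (n + m)) (hw (n + m)) ((2:ℝ) ^ (n + m) * x) ((2:ℝ) ^ (n + m) * y)
      (mul_le_mul_of_nonneg_left hxy hp.le)
    set a := (w (n + m) ⌊(2:ℝ) ^ (n + m) * x⌋ : ℝ) * phi ((2:ℝ) ^ (n + m) * x) with ha
    set b := (w (n + m) ⌊(2:ℝ) ^ (n + m) * y⌋ : ℝ) * phi ((2:ℝ) ^ (n + m) * y) with hb
    have h1 : |a / 2 ^ (n + m) - b / 2 ^ (n + m)| ≤ y - x := by
      rw [← sub_div, abs_div, abs_of_pos hp, div_le_iff₀ hp]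
      calc |a - b| ≤ (2:ℝ) ^ (n + m) * y - (2:ℝ) ^ (n + m) * x := ht
        _ = (y - x) * 2 ^ (n + m) := by ring
    have h2 : (part w (n + m) x + a / 2 ^ (n + m) - part w n x)
        - (part w (n + m) y + b / 2 ^ (n + m) - part w n y)
        = ((part w (n + m) x - part w n x) - (part w (n + m) y - part w n y))
          + (a / 2 ^ (n + m) - b / 2 ^ (n + m)) := by ring
    rw [h2]
    refine (abs_add_le _ _).trans ?_
    push_cast
    linarith

lemma phi_int (z : ℤ) : phi (z : ℝ) = 0 := by simp [phi]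

lemma part_dyadic (w : ℕ → ℤ → ℤ) (n m : ℕ) (c : ℤ) :
    part w (n + m) ((c : ℝ) / 2 ^ n) = part w n ((c : ℝ) / 2 ^ n) := by
  induction m with
  | zero => rfl
  | succ m ih =>
    have e : n + (m + 1) = (n + m) + 1 := by ring
    rw [e, part_succ, ih]
    have h1 : (2:ℝ) ^ (n + m) * ((c : ℝ) / 2 ^ n) = ((2 ^ m * c : ℤ) : ℝ) := by
      push_cast
      rw [pow_add]
      field_simp
    rw [h1, phi_int]
    ring

lemma affine (w : ℕ → ℤ → ℤ) (hw : Sgn w) (n : ℕ) (i : ℤ) (x : ℝ)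
    (hx : x ∈ Icc ((i : ℝ) / 2 ^ n) ((i + 1 : ℝ) / 2 ^ n)) :
    part w n x = (val w n i + slope w n i * ((2:ℝ) ^ n * x - i)) / 2 ^ n := by
  have hp : (0:ℝ) < 2 ^ n := by positivity
  have hlt : (i : ℝ) / 2 ^ n < (i + 1 : ℝ) / 2 ^ n := by
    apply div_lt_div_of_pos_right _ hp
    linarith
  have h1 : EqOn (part w n)
      (fun x => (val w n i + slope w n i * ((2:ℝ) ^ n * x - i)) / 2 ^ n)
      (Ico ((i : ℝ) / 2 ^ n) ((i + 1 : ℝ) / 2 ^ n)) := by
    intro y hy
    rw [← R109.GT.PC.J_eq_Ico] at hy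
    have hy' : ⌊(2:ℝ) ^ n * y⌋ = i := hy
    have h2 := part_eq w n y
    rw [S, hy'] at h2
    exact h2
  have h2 : Continuous fun x : ℝ =>
      ((val w n i : ℝ) + slope w n i * ((2:ℝ) ^ n * x - i)) / 2 ^ n := by
    fun_prop
  have h3 := h1.closure (part_cont w hw n) h2
  rw [closure_Ico hlt.ne] at h3
  exact h3 hx

lemma lip_abs (w : ℕ → ℤ → ℤ) (hw : Sgn w) (n m : ℕ) (i : ℤ) (x y : ℝ)
    (hx : x ∈ Icc ((i : ℝ) / 2 ^ n) ((i + 1 : ℝ) / 2 ^ n))
    (hy : y ∈ Icc ((i : ℝ) / 2 ^ n) ((i + 1 : ℝ) / 2 ^ n)) :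
    |part w (n + m) x - part w (n + m) y| ≤ (|(slope w n i : ℝ)| + m) * |x - y| := by
  have hp : (0:ℝ) < 2 ^ n := by positivity
  have h1 : |part w n x - part w n y| ≤ |(slope w n i : ℝ)| * |x - y| := by
    rw [affine w hw n i x hx, affine w hw n i y hy, ← abs_mul]
    apply le_of_eq
    congr 1
    field_simp
    ring
  have h2 : |(part w (n + m) x - part w n x) - (part w (n + m) y - part w n y)|
      ≤ m * |x - y| := by
    rcases le_total x y with h | h
    · have := lip w hw n m x y h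
      rw [abs_sub_comm x y, abs_of_nonneg (by linarith : (0:ℝ) ≤ y - x)]
      exact this
    · have := lip w hw n m y x h
      rw [abs_of_nonneg (by linarith : (0:ℝ) ≤ x - y), abs_sub_comm]
      exact this
  have h3 : part w (n + m) x - part w (n + m) y = (part w n x - part w n y)
      + ((part w (n + m) x - part w n x) - (part w (n + m) y - part w n y)) := by ring
  rw [h3]
  refine (abs_add_le _ _).trans ?_
  rw [add_mul]
  exact add_le_add h1 h2

/-- measure of the preimage of an interval -/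
lemma preim (w : ℕ → ℤ → ℤ) (hw : Sgn w) (n m : ℕ) (i q : ℤ) (hc : Cr w n i q)
    (hk : 0 < |(slope w n i : ℝ)|) (a b : ℝ) (ha : (q : ℝ) ≤ a) (hb : b ≤ (q:ℝ) + 1) :
    ENNReal.ofReal ((b - a) / 2 ^ n / (|(slope w n i : ℝ)| + m)) ≤
      volume {x : ℝ | x ∈ J n i ∧ a ≤ 2 ^ n * part w (n + m) x ∧
        2 ^ n * part w (n + m) x ≤ b} := by
  have hp : (0:ℝ) < 2 ^ n := by positivity
  set k : ℝ := |(slope w n i : ℝ)| with hkdef
  have hkm : 0 < k + m := by positivity
  set I : Set ℝ := Icc ((i : ℝ) / 2 ^ n) ((i + 1 : ℝ) / 2 ^ n) with hI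
  have hlt : (i : ℝ) / 2 ^ n < (i + 1 : ℝ) / 2 ^ n := by
    apply div_lt_div_of_pos_right _ hp
    linarith
  set f : ℝ → ℝ := part w (n + m) with hf
  have hfc : Continuous f := part_cont w hw (n + m)
  set E : Set ℝ := I ∩ {x | a ≤ 2 ^ n * f x ∧ 2 ^ n * f x ≤ b} with hE
  have hleft : f ((i : ℝ) / 2 ^ n) = val w n i / 2 ^ n := by
    rw [hf, part_dyadic, affine w hw n i _ (left_mem_Icc.mpr hlt.le)]
    congr 1
    field_simp
    ring
  have hright : f ((i + 1 : ℝ) / 2 ^ n) = (val w n i + slope w n i) / 2 ^ n := by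
    have h1 := part_dyadic w n m (i + 1)
    push_cast at h1
    rw [hf, h1, affine w hw n i _ (right_mem_Icc.mpr hlt.le)]
    congr 1
    field_simp
    ring
  -- all values
  have hsurj : Icc (a / 2 ^ n) (b / 2 ^ n) ⊆ f '' E := by
    intro v hv
    have h1 : a ≤ 2 ^ n * v := by
      have := hv.1
      rw [div_le_iff₀ hp] at this
      linarith
    have h2 : 2 ^ n * v ≤ b := by
      have := hv.2
      rw [le_div_iff₀ hp] at this
      linarith
    have h3 : v ∈ uIcc (f ((i : ℝ) / 2 ^ n)) (f ((i + 1 : ℝ) / 2 ^ n)) := by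
      rw [hleft, hright, mem_uIcc, div_le_iff₀ hp, le_div_iff₀ hp, div_le_iff₀ hp,
        le_div_iff₀ hp]
      rcases hc with ⟨h4, h5⟩ | ⟨h4, h5⟩
      · left
        have h4' : (val w n i : ℝ) ≤ q := by exact_mod_cast h4
        have h5' : (q : ℝ) + 1 ≤ val w n i + slope w n i := by exact_mod_cast h5
        constructor <;> linarith
      · right
        have h4' : (val w n i + slope w n i : ℝ) ≤ q := by exact_mod_cast h4
        have h5' : (q : ℝ) + 1 ≤ val w n i := by exact_mod_cast h5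
        constructor <;> linarith
    have h6 := intermediate_value_uIcc (f := f) (a := (i : ℝ) / 2 ^ n)
      (b := (i + 1 : ℝ) / 2 ^ n) hfc.continuousOn h3
    obtain ⟨x, hx, hxv⟩ := h6
    rw [uIcc_of_le hlt.le] at hx
    refine ⟨x, ⟨hx, ?_, ?_⟩, hxv⟩
    · show a ≤ 2 ^ n * f x
      rw [hxv]
      exact h1
    · show 2 ^ n * f x ≤ b
      rw [hxv]
      exact h2
  have hlip : LipschitzOnWith (Real.toNNReal (k + m)) f E := by
    apply LipschitzOnWith.of_dist_le_mul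
    intro x hx y hy
    rw [Real.dist_eq, Real.dist_eq, Real.coe_toNNReal _ hkm.le]
    exact lip_abs w hw n m i x y hx.1 hy.1
  have h7 := hlip.hausdorffMeasure_image_le (d := 1) zero_le_one
  rw [hausdorffMeasure_real, ENNReal.rpow_one] at h7
  have h8 : ENNReal.ofReal ((b - a) / 2 ^ n) ≤ ENNReal.ofReal (k + m) * volume E := by
    have h9 := measure_mono (μ := volume) hsurj
    rw [Real.volume_Icc, ← sub_div] at h9
    exact h9.trans h7
  have h10 : ENNReal.ofReal ((b - a) / 2 ^ n / (k + m)) ≤ volume E := by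
    rw [ENNReal.ofReal_div_of_pos hkm]
    exact ENNReal.div_le_of_le_mul' h8
  refine h10.trans ?_
  have h11 : E ⊆ {x : ℝ | x ∈ J n i ∧ a ≤ 2 ^ n * f x ∧ 2 ^ n * f x ≤ b} ∪
      {(i + 1 : ℝ) / 2 ^ n} := by
    intro x hx
    by_cases hxe : x = (i + 1 : ℝ) / 2 ^ n
    · right
      exact hxe
    · left
      refine ⟨?_, hx.2⟩
      rw [R109.GT.PC.J_eq_Ico]
      exact ⟨hx.1.1, lt_of_le_of_ne hx.1.2 hxe⟩
  refine (measure_mono h11).trans ((measure_union_le _ _).trans ?_)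
  rw [Real.volume_singleton, add_zero]

theorem t_STP : S_STP := by
  intro η r hη hr
  obtain ⟨m, hm⟩ := pow_unbounded_of_one_lt (4 / (η * r)) (by norm_num : (1:ℝ) < 2)
  obtain ⟨K, hK⟩ := exists_nat_ge (2 * m / η)
  refine ⟨K, ?_⟩
  intro w hw n i q hk hc a b ha hab hb
  have hp : (0:ℝ) < 2 ^ n := by positivity
  have hpm : (0:ℝ) < 2 ^ m := by positivity
  have hk' : (K : ℝ) < |(slope w n i : ℝ)| := by exact_mod_cast hk
  have hk0 : 0 < |(slope w n i : ℝ)| := lt_of_le_of_lt (Nat.cast_nonneg K) hk'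
  set k : ℝ := |(slope w n i : ℝ)| with hkdef
  have hkm : 0 < k + m := by positivity
  have hinv : 0 < 1 / (2:ℝ) ^ m := by positivity
  have hms : 2 * (1 / (2:ℝ) ^ m) ≤ η / 2 * (b - a) := by
    have h1 : 4 / (η * r) < 2 ^ m := hm
    have hηr : 0 < η * r := by positivity
    rw [div_lt_iff₀ hηr] at h1
    have h2 : 2 * (1 / (2:ℝ) ^ m) ≤ η * r / 2 := by
      rw [mul_one_div, div_le_iff₀ hpm]
      linarith
    have h3 : η * r ≤ η * (b - a) := mul_le_mul_of_nonneg_left (by linarith) hη.le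
    linarith
  have h1 := preim w hw n m i q hc hk0 (a + 1 / 2 ^ m) (b - 1 / 2 ^ m) (by linarith) (by linarith)
  have h2 : {x : ℝ | x ∈ J n i ∧ a + 1 / 2 ^ m ≤ 2 ^ n * part w (n + m) x ∧
        2 ^ n * part w (n + m) x ≤ b - 1 / 2 ^ m} ⊆
      {x : ℝ | x ∈ J n i ∧ a ≤ 2 ^ n * tak w x ∧ 2 ^ n * tak w x ≤ b} := by
    rintro x ⟨hx, h3, h4⟩
    have hs := split w hw (n + m) x
    have hbd := bound (fun j => w (n + m + j)) (fun c d => hw (n + m + c) d)
      ((2:ℝ) ^ (n + m) * x)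
    have he : 2 ^ n * tak w x = 2 ^ n * part w (n + m) x
        + tak (fun j => w (n + m + j)) ((2:ℝ) ^ (n + m) * x) * (1 / 2 ^ m) := by
      rw [hs, pow_add]
      field_simp
    have hb1 := (abs_le.mp hbd).1
    have hb2 := (abs_le.mp hbd).2
    refine ⟨hx, ?_, ?_⟩
    · rw [he]
      nlinarith
    · rw [he]
      nlinarith
  refine le_trans ?_ (h1.trans (measure_mono h2))
  apply ENNReal.ofReal_le_ofReal
  have e1 : b - 1 / 2 ^ m - (a + 1 / 2 ^ m) = (b - a) - 2 * (1 / 2 ^ m) := by ring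
  rw [e1, div_div, div_div, div_le_div_iff₀ (by positivity) (by positivity)]
  have hba : 0 < b - a := by linarith
  have hKk : 2 * m / η < k := lt_of_le_of_lt hK hk'
  rw [div_lt_iff₀ hη] at hKk
  have hm0 : (0:ℝ) ≤ m := Nat.cast_nonneg m
  have h5 : (1 - η) * (k + m) ≤ (1 - η / 2) * k := by nlinarith
  have h6 : (1 - η) * (b - a) * (k + m) ≤ ((b - a) - 2 * (1 / 2 ^ m)) * k := by
    have h7 : (1 - η) * (b - a) * (k + m) ≤ (b - a) * ((1 - η / 2) * k) := by
      have := mul_le_mul_of_nonneg_left h5 hba.le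
      linarith
    have h8 : (b - a) * ((1 - η / 2) * k) ≤ ((b - a) - 2 * (1 / 2 ^ m)) * k := by
      nlinarith
    exact h7.trans h8
  calc (1 - η) * (b - a) * (2 ^ n * (k + m)) = ((1 - η) * (b - a) * (k + m)) * 2 ^ n := by ring
    _ ≤ (((b - a) - 2 * (1 / 2 ^ m)) * k) * 2 ^ n := mul_le_mul_of_nonneg_right h6 hp.le
    _ = (b - a - 2 * (1 / 2 ^ m)) * (k * 2 ^ n) := by ring

end Run7.h417.TK.STP
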