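import Pool.Agent.Run7.h608.TK.Iface

set_option autoImplicit false

open MeasureTheory Set Filter Topology
open scoped ENNReal
open R109.GT
open Run7.h608.TK

namespace Run7.h417.TK.UPI

lemma slope_even (w : ℕ → ℤ → ℤ) (n : ℕ) (i : ℤ) :
    slope w (n + 1) (2 * i) = slope w n i + w n i := by
  have h1 : 2 * i / 2 = i := by omega
  have h2 : 2 * i % 2 = 0 := by omega
  rw [R109.GT.slope, h1, if_pos h2, mul_one]

lemma slope_odd (w : ℕ → ℤ → ℤ) (n : ℕ) (i : ℤ) :
    slope w (n + 1) (2 * i + 1) = slope w n i - w n i := by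
  have h1 : (2 * i + 1) / 2 = i := by omega
  have h2 : ¬ (2 * i + 1) % 2 = 0 := by omega
  rw [R109.GT.slope, h1, if_neg h2]
  ring

lemma val_even (w : ℕ → ℤ → ℤ) (n : ℕ) (i : ℤ) :
    val w (n + 1) (2 * i) = 2 * val w n i := by
  have h1 : 2 * i / 2 = i := by omega
  have h2 : 2 * i % 2 = 0 := by omega
  rw [val, h1, if_pos h2, add_zero]

lemma val_odd (w : ℕ → ℤ → ℤ) (n : ℕ) (i : ℤ) :
    val w (n + 1) (2 * i + 1) = 2 * val w n i + (slope w n i + w n i) := by
  have h1 : (2 * i + 1) / 2 = i := by omega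
  have h2 : ¬ (2 * i + 1) % 2 = 0 := by omega
  rw [val, h1, if_neg h2]

/-- the interval of level three -/
lemma pick (w : ℕ → ℤ → ℤ) (hw : Sgn w) (n : ℕ) (i : ℤ) (h0 : slope w n i = 0) (h1 : w n i = 1) :
    ∃ j : ℤ, j / 2 ^ 3 = i ∧ 8 * val w n i + 1 ≤ val w (n + 3) j ∧
      8 * val w n i + 1 ≤ val w (n + 3) j + slope w (n + 3) j := by
  have s1 : slope w (n + 1) (2 * i) = 1 := by rw [slope_even, h0, h1]; norm_num
  have v1 : val w (n + 1) (2 * i) = 2 * val w n i := val_even w n i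
  have s2 : slope w (n + 2) (2 * (2 * i) + 1) = 1 - w (n + 1) (2 * i) := by
    rw [slope_odd w (n + 1), s1]
  have v2 : val w (n + 2) (2 * (2 * i) + 1) = 4 * val w n i + (1 + w (n + 1) (2 * i)) := by
    rw [val_odd w (n + 1), s1, v1]
    ring
  rcases hw (n + 1) (2 * i) with ha | ha
  · refine ⟨2 * (2 * (2 * i) + 1), by norm_num; omega, ?_, ?_⟩
    · rw [val_even w (n + 2), v2, ha]
      omega
    · rw [val_even w (n + 2), slope_even w (n + 2), v2, s2, ha]
      rcases hw (n + 2) (2 * (2 * i) + 1) with hb | hb <;> rw [hb] <;> omega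
  · refine ⟨2 * (2 * (2 * i) + 1) + 1, by norm_num; omega, ?_, ?_⟩
    · rw [val_odd w (n + 2), v2, s2, ha]
      rcases hw (n + 2) (2 * (2 * i) + 1) with hb | hb <;> rw [hb] <;> omega
    · rw [val_odd w (n + 2), slope_odd w (n + 2), v2, s2, ha]
      rcases hw (n + 2) (2 * (2 * i) + 1) with hb | hb <;> rw [hb] <;> omega

lemma pick' (w : ℕ → ℤ → ℤ) (hw : Sgn w) (n : ℕ) (i : ℤ) (h0 : slope w n i = 0) (h1 : w n i = -1) :
    ∃ j : ℤ, j / 2 ^ 3 = i ∧ val w (n + 3) j ≤ 8 * val w n i - 1 ∧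
      val w (n + 3) j + slope w (n + 3) j ≤ 8 * val w n i - 1 := by
  have s1 : slope w (n + 1) (2 * i) = -1 := by rw [slope_even, h0, h1]; norm_num
  have v1 : val w (n + 1) (2 * i) = 2 * val w n i := val_even w n i
  have s2 : slope w (n + 2) (2 * (2 * i) + 1) = -1 - w (n + 1) (2 * i) := by
    rw [slope_odd w (n + 1), s1]
  have v2 : val w (n + 2) (2 * (2 * i) + 1) = 4 * val w n i + (-1 + w (n + 1) (2 * i)) := by
    rw [val_odd w (n + 1), s1, v1]
    ring
  rcases hw (n + 1) (2 * i) with ha | ha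
  · refine ⟨2 * (2 * (2 * i) + 1) + 1, by norm_num; omega, ?_, ?_⟩
    · rw [val_odd w (n + 2), v2, s2, ha]
      rcases hw (n + 2) (2 * (2 * i) + 1) with hb | hb <;> rw [hb] <;> omega
    · rw [val_odd w (n + 2), slope_odd w (n + 2), v2, s2, ha]
      rcases hw (n + 2) (2 * (2 * i) + 1) with hb | hb <;> rw [hb] <;> omega
  · refine ⟨2 * (2 * (2 * i) + 1), by norm_num; omega, ?_, ?_⟩
    · rw [val_even w (n + 2), v2, ha]
      omega
    · rw [val_even w (n + 2), slope_even w (n + 2), v2, s2, ha]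
      rcases hw (n + 2) (2 * (2 * i) + 1) with hb | hb <;> rw [hb] <;> omega

lemma sgn_sh {w : ℕ → ℤ → ℤ} (hw : Sgn w) (n : ℕ) : Sgn (fun m => w (n + m)) :=
  fun a b => hw (n + a) b

lemma at_level (w : ℕ → ℤ → ℤ) (hw : Sgn w) (n : ℕ) (i : ℤ) (x : ℝ) (hx : x ∈ J n i) :
    ∃ t e : ℝ, 0 ≤ t ∧ t < 1 ∧ |e| ≤ 1 ∧
      2 ^ n * tak w x = val w n i + slope w n i * t + e := by
  have hx' : ⌊(2:ℝ) ^ n * x⌋ = i := hx
  refine ⟨(2:ℝ) ^ n * x - i, tak (fun m => w (n + m)) ((2:ℝ) ^ n * x), ?_, ?_,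
    bound _ (sgn_sh hw n) _, ?_⟩
  · rw [← hx']
    linarith [Int.floor_le ((2:ℝ) ^ n * x)]
  · rw [← hx']
    linarith [Int.lt_floor_add_one ((2:ℝ) ^ n * x)]
  · have h := tak_eq w hw n x
    rw [S, hx'] at h
    rw [h]
    field_simp

theorem t_UPI : S_UPI := by
  intro w hw n i h0
  have hvol : ∀ j : ℤ, j / 2 ^ 3 = i → ENNReal.ofReal (1 / 8 / 2 ^ n) = volume (J (n + 3) j) ∧
      J (n + 3) j ⊆ J n i := by
    intro j hj
    constructor
    · rw [vol_J]
      congr 1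
      rw [pow_add]
      field_simp
      norm_num
    · intro x hx
      have hx' : ⌊(2:ℝ) ^ (n + 3) * x⌋ = j := hx
      show ⌊(2:ℝ) ^ n * x⌋ = i
      rw [floor_div n 3 x, hx', hj]
  rcases hw n i with h1 | h1
  · obtain ⟨j, hj, hv, hs⟩ := pick w hw n i h0 h1
    obtain ⟨e1, e2⟩ := hvol j hj
    rw [e1]
    apply measure_mono
    intro x hx
    refine ⟨e2 hx, ?_, ?_⟩
    · obtain ⟨t, e, ht0, ht1, he, hE⟩ := at_level w hw (n + 3) j x hx
      rw [cell, if_pos h1]
      have hv' : (8 * val w n i + 1 : ℝ) ≤ val w (n + 3) j := by exact_mod_cast hv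
      have hs' : (8 * val w n i + 1 : ℝ) ≤ val w (n + 3) j + slope w (n + 3) j := by
        exact_mod_cast hs
      rw [pow_add] at hE
      have h2 := (abs_le.mp he).1
      have h3 : (8 * val w n i + 1 : ℝ) ≤ val w (n + 3) j + slope w (n + 3) j * t := by
        nlinarith
      nlinarith
    · obtain ⟨t, e, ht0, ht1, he, hE⟩ := at_level w hw n i x (e2 hx)
      rw [cell, if_pos h1, hE, h0]
      have h2 := (abs_le.mp he).2
      push_cast
      linarith
  · obtain ⟨j, hj, hv, hs⟩ := pick' w hw n i h0 h1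
    obtain ⟨e1, e2⟩ := hvol j hj
    rw [e1]
    apply measure_mono
    have hne : ¬ w n i = 1 := by rw [h1]; norm_num
    intro x hx
    refine ⟨e2 hx, ?_, ?_⟩
    · obtain ⟨t, e, ht0, ht1, he, hE⟩ := at_level w hw n i x (e2 hx)
      rw [cell, if_neg hne, hE, h0]
      have h2 := (abs_le.mp he).1
      push_cast
      linarith
    · obtain ⟨t, e, ht0, ht1, he, hE⟩ := at_level w hw (n + 3) j x hx
      rw [cell, if_neg hne]
      have hv' : (val w (n + 3) j : ℝ) ≤ 8 * val w n i - 1 := by exact_mod_cast hv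
      have hs' : (val w (n + 3) j + slope w (n + 3) j : ℝ) ≤ 8 * val w n i - 1 := by
        exact_mod_cast hs
      rw [pow_add] at hE
      have h2 := (abs_le.mp he).2
      have h3 : (val w (n + 3) j + slope w (n + 3) j * t : ℝ) ≤ 8 * val w n i - 1 := by
        nlinarith
      push_cast
      nlinarith

end Run7.h417.TK.UPI
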