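import Pool.Agent.Run7.h608.TK.Iface

set_option autoImplicit false

open MeasureTheory Set Filter Topology
open scoped ENNReal
open R109.GT
open Run7.h608.TK

namespace Run7.h417.TK

lemma sum_Ico_int (f : ℤ → ℝ) (N : ℕ) :
    ∑ i ∈ Finset.Ico (0:ℤ) N, f i = ∑ k ∈ Finset.range N, f (k:ℤ) := by
  refine Finset.sum_nbij' (fun i => i.toNat) (fun k => (k:ℤ)) ?_ ?_ ?_ ?_ ?_
  · intro i hi
    rw [Finset.mem_Ico] at hi
    rw [Finset.mem_range]
    omega
  · intro k hk
    rw [Finset.mem_range] at hk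
    rw [Finset.mem_Ico]
    omega
  · intro i hi
    rw [Finset.mem_Ico] at hi
    show ((i.toNat : ℕ) : ℤ) = i
    omega
  · intro k _
    simp
  · intro i hi
    rw [Finset.mem_Ico] at hi
    show f i = f ((i.toNat : ℕ) : ℤ)
    congr 1
    omega

lemma sum_double (f : ℤ → ℝ) (N : ℕ) :
    ∑ i ∈ Finset.Ico (0:ℤ) (2 * N : ℕ), f i =
      ∑ i ∈ Finset.Ico (0:ℤ) N, (f (2 * i) + f (2 * i + 1)) := by
  rw [sum_Ico_int, sum_Ico_int (fun i => f (2 * i) + f (2 * i + 1))]
  induction N with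
  | zero => simp
  | succ N ih =>
    rw [Finset.sum_range_succ, ← ih]
    have e : 2 * (N + 1) = 2 * N + 1 + 1 := by ring
    rw [e, Finset.sum_range_succ, Finset.sum_range_succ]
    push_cast
    ring

lemma sum_ivs_succ (f : ℤ → ℝ) (n : ℕ) :
    ∑ i ∈ ivs (n + 1), f i = ∑ i ∈ ivs n, (f (2 * i) + f (2 * i + 1)) := by
  have h := sum_double f (2 ^ n)
  have e1 : ((2 * 2 ^ n : ℕ) : ℤ) = 2 ^ (n + 1) := by
    push_cast
    ring
  have e2 : ((2 ^ n : ℕ) : ℤ) = 2 ^ n := by push_cast; rfl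
  rw [e1, e2] at h
  exact h

lemma card_ivs (n : ℕ) : (ivs n).card = 2 ^ n := by
  unfold ivs
  rw [Int.card_Ico]
  have : (2:ℤ) ^ n - 0 = ((2 ^ n : ℕ) : ℤ) := by push_cast; ring
  rw [this, Int.toNat_natCast]

lemma slope_even (w : ℕ → ℤ → ℤ) (n : ℕ) (i : ℤ) :
    slope w (n + 1) (2 * i) = slope w n i + w n i := by
  have h1 : 2 * i / 2 = i := by omega
  have h2 : 2 * i % 2 = 0 := by omega
  rw [R109.GT.slope, h1, if_pos h2, mul_one]

lemma slope_odd (w : ℕ → ℤ → ℤ) (n : ℕ) (i : ℤ) :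
    slope w (n + 1) (2 * i + 1) = slope w n i - w n i := by
  have h1 : (2 * i + 1) / 2 = i := by omega
  have h2 : ¬ (2 * i + 1) % 2 = 0 := by omega
  rw [R109.GT.slope, h1, if_neg h2]
  ring

/-- some slope on the way is large -/
def Big (w : ℕ → ℤ → ℤ) (l : ℝ) (M : ℕ) (i : ℤ) : Prop :=
  ∃ s, s ≤ M ∧ l ≤ |(slope w s (i / 2 ^ (M - s)) : ℝ)|

lemma anc (M s : ℕ) (hs : s ≤ M) (i e : ℤ) (he : e = 0 ∨ e = 1) :
    (2 * i + e) / 2 ^ (M + 1 - s) = i / 2 ^ (M - s) := by
  have h1 : (2:ℤ) ^ (M + 1 - s) = 2 * 2 ^ (M - s) := by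
    have : M + 1 - s = (M - s) + 1 := by omega
    rw [this, pow_succ]
    ring
  rw [h1, ← Int.ediv_ediv_of_nonneg (by norm_num)]
  congr 1
  omega

lemma big_child (w : ℕ → ℤ → ℤ) (l : ℝ) (M : ℕ) (i e : ℤ) (he : e = 0 ∨ e = 1) :
    Big w l (M + 1) (2 * i + e) ↔ Big w l M i ∨ l ≤ |(slope w (M + 1) (2 * i + e) : ℝ)| := by
  constructor
  · rintro ⟨s, hs, h⟩
    rcases Nat.lt_or_ge M s with h1 | h1
    · have : s = M + 1 := by omega
      subst this
      right
      simpa using h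
    · left
      refine ⟨s, h1, ?_⟩
      rw [anc M s h1 i e he] at h
      exact h
  · rintro (⟨s, hs, h⟩ | h)
    · refine ⟨s, by omega, ?_⟩
      rw [anc M s hs i e he]
      exact h
    · refine ⟨M + 1, le_rfl, ?_⟩
      simpa using h

open Classical in
/-- potential -/
noncomputable def pot (w : ℕ → ℤ → ℤ) (l : ℝ) (M : ℕ) (i : ℤ) : ℝ :=
  if Big w l M i then (slope w M i : ℝ) ^ 2 + l ^ 2 else 2 * (slope w M i : ℝ) ^ 2

lemma pot_child (w : ℕ → ℤ → ℤ) (l : ℝ) (hl : 0 < l) (M : ℕ) (i e : ℤ)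
    (he : e = 0 ∨ e = 1) (k' : ℤ) (hk : slope w (M + 1) (2 * i + e) = k') :
    (Big w l M i → pot w l (M + 1) (2 * i + e) = (k' : ℝ) ^ 2 + l ^ 2) ∧
    (¬ Big w l M i → pot w l (M + 1) (2 * i + e) ≤ 2 * (k' : ℝ) ^ 2) := by
  constructor
  · intro h
    have h1 : Big w l (M + 1) (2 * i + e) := (big_child w l M i e he).mpr (Or.inl h)
    rw [pot, if_pos h1, hk]
  · intro h
    by_cases h1 : Big w l (M + 1) (2 * i + e)
    · rw [pot, if_pos h1, hk]
      rcases (big_child w l M i e he).mp h1 with h2 | h2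
      · exact absurd h2 h
      · rw [hk] at h2
        have h3 : l ^ 2 ≤ (k' : ℝ) ^ 2 := by
          rw [← sq_abs (k' : ℝ)]
          exact pow_le_pow_left₀ hl.le h2 2
        linarith
    · rw [pot, if_neg h1, hk]

lemma pot_sum (w : ℕ → ℤ → ℤ) (hw : Sgn w) (l : ℝ) (hl : 0 < l) (M : ℕ) :
    ∑ i ∈ ivs M, pot w l M i ≤ 2 * M * 2 ^ M := by
  induction M with
  | zero =>
    have h0 : ∀ i ∈ ivs 0, pot w l 0 i = 0 := by
      intro i _
      have : ¬ Big w l 0 i := by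
        rintro ⟨s, hs, h⟩
        have : s = 0 := by omega
        subst this
        simp [R109.GT.slope] at h
        linarith
      rw [pot, if_neg this]
      simp [R109.GT.slope]
    rw [Finset.sum_congr rfl h0]
    simp
  | succ M ih =>
    rw [sum_ivs_succ]
    have h1 : ∀ i ∈ ivs M, pot w l (M + 1) (2 * i) + pot w l (M + 1) (2 * i + 1)
        ≤ 2 * pot w l M i + 4 := by
      intro i _
      have e0 : slope w (M + 1) (2 * i + 0) = slope w M i + w M i := by
        rw [add_zero]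
        exact slope_even w M i
      have a0 := pot_child w l hl M i 0 (Or.inl rfl) _ e0
      have a1 := pot_child w l hl M i 1 (Or.inr rfl) _ (slope_odd w M i)
      rw [add_zero] at a0
      have hsq : ((w M i : ℤ) : ℝ) ^ 2 = 1 := by
        rcases hw M i with h | h <;> simp [h]
      by_cases hb : Big w l M i
      · have hp : pot w l M i = (slope w M i : ℝ) ^ 2 + l ^ 2 := by rw [pot, if_pos hb]
        rw [a0.1 hb, a1.1 hb, hp]
        push_cast
        nlinarith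
      · have b0 := a0.2 hb
        have b1 := a1.2 hb
        have hp : pot w l M i = 2 * (slope w M i : ℝ) ^ 2 := by rw [pot, if_neg hb]
        rw [hp]
        push_cast at b0 b1
        nlinarith
    calc ∑ i ∈ ivs M, (pot w l (M + 1) (2 * i) + pot w l (M + 1) (2 * i + 1))
        ≤ ∑ i ∈ ivs M, (2 * pot w l M i + 4) := Finset.sum_le_sum h1
      _ = 2 * ∑ i ∈ ivs M, pot w l M i + 4 * 2 ^ M := by
          rw [Finset.sum_add_distrib, ← Finset.mul_sum, Finset.sum_const, card_ivs, nsmul_eq_mul]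
          push_cast
          ring
      _ ≤ 2 * (2 * M * 2 ^ M) + 4 * 2 ^ M := by linarith
      _ = 2 * ((M + 1 : ℕ) : ℝ) * 2 ^ (M + 1) := by
          push_cast
          ring

theorem t_UPR : S_UPR := by
  intro w hw M l hl
  classical
  have h := pot_sum w hw l hl M
  have h1 : ∀ i ∈ (ivs M).filter (fun i => ∃ s, s ≤ M ∧ l ≤ |(slope w s (i / 2 ^ (M - s)) : ℝ)|),
      2 * l * |(slope w M i : ℝ)| ≤ pot w l M i := by
    intro i hi
    rw [Finset.mem_filter] at hi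
    have hb : Big w l M i := hi.2
    rw [pot, if_pos hb, ← sq_abs (slope w M i : ℝ)]
    nlinarith [sq_nonneg (|(slope w M i : ℝ)| - l)]
  have h2 : ∑ i ∈ (ivs M).filter (fun i => ∃ s, s ≤ M ∧ l ≤ |(slope w s (i / 2 ^ (M - s)) : ℝ)|),
      2 * l * |(slope w M i : ℝ)| ≤ ∑ i ∈ ivs M, pot w l M i := by
    refine (Finset.sum_le_sum h1).trans ?_
    refine Finset.sum_le_sum_of_subset_of_nonneg (Finset.filter_subset _ _) ?_
    intro i _ _
    unfold pot
    split_ifs <;> positivity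
  rw [← Finset.mul_sum] at h2
  have h3 : 2 * l * ∑ i ∈ (ivs M).filter (fun i => ∃ s, s ≤ M ∧ l ≤ |(slope w s (i / 2 ^ (M - s)) : ℝ)|),
      |(slope w M i : ℝ)| ≤ 2 * M * 2 ^ M := h2.trans h
  have e : (2:ℝ) ^ M * (M / l) = (2 * M * 2 ^ M) / (2 * l) := by
    field_simp
  rw [e, le_div_iff₀ (by positivity), mul_comm]
  exact h3

end Run7.h417.TK
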